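import Pool.Agent.SYZ.RankFormula

/-!
The stabiliser of a nef isotropic class `L` in the group of bimeromorphic self-maps, up to torsion
and finite index, and its rank, with no fibration assumed to exist. Let `T` be the group of classes
orthogonal to `L` and to every prime divisor orthogonal to `L`. A fixed multiple of every `t ∈ T`
gives an Eichler transvection induced by a bimeromorphic self-map; a fixed power of every
bimeromorphic self-map fixing `L` is an Eichler transvection with `t ∈ T`; and the rank of `T` is
`rank L^⊥ - ∑ (|C| - 1)`, the sum being over the connected components `C` of the graph of prime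
divisors orthogonal to `L`.
-/

namespace Pool.Agent.Attic.MP_a405d2_ag.BirStabilizer

open Pool.Agent.SYZ

theorem result {K P Pic : Type*} [Field K] [Algebra ℂ K] [AddCommGroup Pic] [Module.Finite ℤ Pic]
    [IsAddTorsionFree Pic] (S : HKDivisors K P Pic) (B : BirationalData S) (L : Pic)
    (hL : S.NefIsotropic L) :
    (∃ N : ℕ, 0 < N ∧ ∀ t ∈ S.doublePerp L, ∃ g ∈ B.bir, ∀ x, g x = S.eichlerFun L (N • t) x) ∧
    (∃ N : ℕ, 0 < N ∧ ∀ g ∈ B.bir, g L = L →
      ∃ t ∈ S.doublePerp L, ∀ x, (g ^ N) x = S.eichlerFun L t x) ∧
    Module.finrank ℤ (S.doublePerp L) +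
      ∑ᶠ C : (S.graph.induce (S.orth L)).ConnectedComponent, (C.supp.ncard - 1) = S.perpRank L :=
  ⟨S.transvection_mem_bir B hL, S.bir_power B hL, S.rank_formula B.toMonodromyData hL⟩

end Pool.Agent.Attic.MP_a405d2_ag.BirStabilizer
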