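import Pool.Agent.SYZ.Dim
import Pool.Agent.SYZ.Affine

/-!
The Iitaka field of a nef isotropic class `L` in terms of a bimeromorphic self-map `φ` that fixes
`L` and has infinite order on the Picard group (a parabolic map). For a nonzero meromorphic function
`f` the following are equivalent: `f` is constant or a quotient of two sections of a positive power
of `L`; the divisor of `f` is supported on prime divisors orthogonal to `L`; `f` is a quotient of
two functions that are finite under `φ`. Hence the Iitaka dimension of `L` is at least `m ≥ 1` if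
and only if there are `m` algebraically independent meromorphic functions that are finite under `φ`.
It is at least `1` if and only if there is a nonconstant meromorphic function `f` with
`γ f = a f + b` for constants `a`, `b`, if and only if some power of `φ` fixes a class with two
different effective divisors.
-/

namespace Pool.Agent.Attic.MP_a405d2_ag.FiniteFunctions

open Pool.Agent.SYZ

theorem result {K P Pic : Type*} [Field K] [Algebra ℂ K] [AddCommGroup Pic] [Module.Finite ℤ Pic]
    [IsAddTorsionFree Pic] (S : HKDivisors K P Pic)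
    (hfd : ∀ E : P →₀ ℤ, FiniteDimensional ℂ (S.sections E)) (φ : SelfMap S) (L : Pic)
    (hL : S.NefIsotropic L) (hφ : φ.g L = L) (hinf : ¬ IsOfFinOrder φ.g) :
    (∀ f : K, f ≠ 0 → List.TFAE [(∃ c : ℂ, f = algebraMap ℂ K c) ∨ f ∈ S.sectionQuotients L,
      ∀ D, D ∉ S.orth L → S.v D f = 0,
      ∃ a b : K, φ.IsFinite a ∧ φ.IsFinite b ∧ f = a / b]) ∧
    (∀ m : ℕ, (∃ f : Fin m → K, (∀ i, f i ∈ S.sectionQuotients L) ∧ AlgebraicIndependent ℂ f) ↔
      ∃ f : Fin m → K, (∀ i, φ.IsFinite (f i)) ∧ AlgebraicIndependent ℂ f) ∧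
    List.TFAE [S.TwoSections L,
      ∃ f : K, (∀ c : ℂ, f ≠ algebraMap ℂ K c) ∧
        ∃ a b : ℂ, φ.γ f = algebraMap ℂ K a * f + algebraMap ℂ K b,
      ∃ j : ℕ, 0 < j ∧ ∃ x : Pic, (φ.g ^ j) x = x ∧
        ∃ E E' : P →₀ ℤ, 0 ≤ E ∧ 0 ≤ E' ∧ E ≠ E' ∧ S.O E = x ∧ S.O E' = x] := by
  refine ⟨fun _ hf => SelfMap.pointwise hfd φ hL hφ hinf hf, SelfMap.dim_iff hfd φ hL hφ hinf, ?_⟩
  tfae_have 1 → 2 := SelfMap.exists_affine hfd φ hφ
  tfae_have 2 → 3 := by
    rintro ⟨f, hf, a, b, hab⟩
    refine ⟨1, one_pos, ?_⟩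
    have h := (φ.pow 1).fixed_class_of_affine hf (a := a) (b := b)
      (by rw [show (φ.pow 1).γ = φ.γ ^ 1 from rfl, pow_one]; exact hab)
    exact h
  tfae_have 3 → 1 := by
    rintro ⟨j, hj, x, hx, E, E', hE, hE', hne, h1, h2⟩
    exact S.twoSections_of_perp hL (S.perp_of_fixed hL φ.isometry hφ hinf hj hx) hE hE' hne h1 h2
  tfae_finish

end Pool.Agent.Attic.MP_a405d2_ag.FiniteFunctions
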