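import Pool.Agent.SYZ.FiniteBir

/-!
Nonvanishing for nef isotropic classes `L` whose stabiliser among the bimeromorphic self-maps is
torsion on the Picard group: if `L^⊥` has rank at least two, then some positive power of `L` has a
section, at least `rank L^⊥` prime divisors are orthogonal to `L`, and they rationally span `L^⊥`.
-/

namespace Pool.Agent.Attic.MP_a405d2_ag.FiniteStabilizer

open Pool.Agent.SYZ

theorem result {K P Pic : Type*} [Field K] [Algebra ℂ K] [AddCommGroup Pic] [Module.Finite ℤ Pic]
    (S : HKDivisors K P Pic) (B : BirationalData S) (L : Pic) (hL : S.NefIsotropic L)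
    (hr : 2 ≤ S.perpRank L) (hfin : ∀ g ∈ B.bir, g L = L → IsOfFinOrder g) :
    S.QEffective L ∧ (S.perpRank L : ℕ∞) ≤ (S.orth L).encard ∧
      ∀ x, S.q L x = 0 → ∃ a : ℤ, a ≠ 0 ∧ a • x ∈ AddSubgroup.closure (S.cls '' S.orth L) :=
  S.nonvanishing_of_torsion B hL hfin hr

end Pool.Agent.Attic.MP_a405d2_ag.FiniteStabilizer
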