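import Pool.Agent.SYZ.Periodic

/-!
The Iitaka field of a nef isotropic class `L` in terms of a bimeromorphic self-map `φ` that fixes
`L` and has infinite order on the Picard group (a parabolic map). A nonzero meromorphic function is
constant or a quotient of two sections of a power of `L` if and only if its divisor is supported on
prime divisors orthogonal to `L`, if and only if the degrees of the pole divisors along its orbit
are bounded, if and only if it lies in the field generated by the functions `h` with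
`γ h = a h + b`; and this holds if `γ f` is algebraic over `ℂ(f)`. There are `m + 1` algebraically
independent quotients of sections if and only if there are `m + 1` algebraically independent
functions, the first with `γ f = a f + b` and the others with `γ f = a f`. For `m = 0` this holds
if and only if `φ` preserves a pencil, if and only if at least `rank L^⊥` prime divisors have a
periodic class.
-/

namespace Pool.Agent.Results.MP_a405d2_ag.IitakaField

open Pool.Agent.SYZ

theorem result {K P Pic : Type*} [Field K] [Algebra ℂ K] [AddCommGroup Pic] [Module.Finite ℤ Pic]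
    [IsAddTorsionFree Pic] (S : HKDivisors K P Pic)
    (hfd : ∀ E : P →₀ ℤ, FiniteDimensional ℂ (S.sections E)) (φ : SelfMap S) (L : Pic)
    (hL : S.NefIsotropic L) (hφ : φ.g L = L) (hinf : ¬ IsOfFinOrder φ.g) :
    (∀ f : K, f ≠ 0 → List.TFAE [(∃ c : ℂ, f = algebraMap ℂ K c) ∨ f ∈ S.sectionQuotients L,
      ∀ D, D ∉ S.orth L → S.v D f = 0,
      ∃ C : ℝ, ∀ k : ℕ, S.poleDeg ((φ.γ ^ k) f) ≤ C,
      f ∈ IntermediateField.adjoin ℂ
        {h : K | ∃ a b : ℂ, φ.γ h = algebraMap ℂ K a * h + algebraMap ℂ K b}]) ∧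
    (∀ f : K, IsAlgebraic (IntermediateField.adjoin ℂ {f}) (φ.γ f) →
      (∃ c : ℂ, f = algebraMap ℂ K c) ∨ f ∈ S.sectionQuotients L) ∧
    (∀ m : ℕ, (∃ f : Fin (m + 1) → K, (∀ i, f i ∈ S.sectionQuotients L) ∧
        AlgebraicIndependent ℂ f) ↔
      ∃ f : Fin (m + 1) → K, AlgebraicIndependent ℂ f ∧
        (∃ a b : ℂ, φ.γ (f 0) = algebraMap ℂ K a * f 0 + algebraMap ℂ K b) ∧
        ∀ i, i ≠ 0 → ∃ a : ℂ, φ.γ (f i) = algebraMap ℂ K a * f i) ∧
    List.TFAE [S.TwoSections L, φ.PreservesPencil,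
      (S.perpRank L : ℕ∞) ≤ {D | ∃ j : ℕ, 0 < j ∧ (φ.g ^ j) (S.cls D) = S.cls D}.encard,
      ∃ j : ℕ, 0 < j ∧ ∃ x : Pic, (φ.g ^ j) x = x ∧
        ∃ E E' : P →₀ ℤ, 0 ≤ E ∧ 0 ≤ E' ∧ E ≠ E' ∧ S.O E = x ∧ S.O E' = x] :=
  ⟨fun _ hf => φ.pointwise_affine hfd hL hφ hinf hf,
    fun _ hf => φ.quotient_of_algebraic hL hφ hinf hf,
    φ.normal_form_iff hfd hL hφ hinf, φ.tfae_pencil hfd hL hφ hinf⟩

end Pool.Agent.Results.MP_a405d2_ag.IitakaField
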