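import Pool.Agent.SYZ.Periodic

/-!
Nonvanishing and invariant pencils, for a nef isotropic class `L` in the divisor data of a
projective hyperkähler manifold, if `L^⊥` has rank at least two. Some positive power of `L` has a
section and at least `rank L^⊥` prime divisors are orthogonal to `L`, if and only if every
bimeromorphic self-map which fixes `L` and has infinite order on the Picard group preserves a
pencil, if and only if there is no such map or some such map preserves a pencil.
-/

namespace Pool.Agent.Attic.MP_a405d2_ag.InvariantPencils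

open Pool.Agent.SYZ

theorem result {K P Pic : Type*} [Field K] [Algebra ℂ K] [AddCommGroup Pic] [Module.Finite ℤ Pic]
    [IsAddTorsionFree Pic] (S : HKDivisors K P Pic) (T : TorelliData S)
    (hfd : ∀ E : P →₀ ℤ, FiniteDimensional ℂ (S.sections E)) (L : Pic) (hL : S.NefIsotropic L)
    (hr : 2 ≤ S.perpRank L) :
    List.TFAE [S.QEffective L ∧ (S.perpRank L : ℕ∞) ≤ (S.orth L).encard,
      ∀ φ : SelfMap S, φ.g L = L → ¬ IsOfFinOrder φ.g → φ.PreservesPencil,
      (∀ φ : SelfMap S, φ.g L = L → IsOfFinOrder φ.g) ∨
        ∃ φ : SelfMap S, φ.g L = L ∧ ¬ IsOfFinOrder φ.g ∧ φ.PreservesPencil] := by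
  have h := T.tfae hfd hL hr
  tfae_have 1 → 2 := fun h1 => (h.out 0 1).1 h1.2
  tfae_have 2 → 3 := (h.out 1 2).1
  tfae_have 3 → 1 := fun h3 =>
    have h1 := (h.out 2 0).1 h3
    ⟨S.qEffective_of_encard hL h1, h1⟩
  tfae_finish

end Pool.Agent.Attic.MP_a405d2_ag.InvariantPencils
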