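import Pool.Agent.SYZ.Affine

/-!
A dynamical criterion for two sections of a power of a nef isotropic class `L`, in the presence of
a bimeromorphic self-map `φ` that fixes `L` and has infinite order on the Picard group (a parabolic
map). Some positive power of `L` has two linearly independent sections if and only if there is a
nonconstant meromorphic function `f` with `γ f = a f + b` for constants `a`, `b`, if and only if
the same holds for some power of `φ`, if and only if some power of `φ` fixes a class with two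
different effective divisors.
-/

namespace Pool.Agent.Attic.MP_a405d2_ag.ParabolicMap

open Pool.Agent.SYZ

theorem result {K P Pic : Type*} [Field K] [Algebra ℂ K] [AddCommGroup Pic] [Module.Finite ℤ Pic]
    [IsAddTorsionFree Pic] (S : HKDivisors K P Pic)
    (hfd : ∀ E : P →₀ ℤ, FiniteDimensional ℂ (S.sections E)) (φ : SelfMap S) (L : Pic)
    (hL : S.NefIsotropic L) (hφ : φ.g L = L) (hinf : ¬ IsOfFinOrder φ.g) :
    List.TFAE [S.TwoSections L,
      ∃ f : K, (∀ c : ℂ, f ≠ algebraMap ℂ K c) ∧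
        ∃ a b : ℂ, φ.γ f = algebraMap ℂ K a * f + algebraMap ℂ K b,
      ∃ j : ℕ, 0 < j ∧ ∃ f : K, (∀ c : ℂ, f ≠ algebraMap ℂ K c) ∧
        ∃ a b : ℂ, (φ.γ ^ j) f = algebraMap ℂ K a * f + algebraMap ℂ K b,
      ∃ j : ℕ, 0 < j ∧ ∃ x : Pic, (φ.g ^ j) x = x ∧
        ∃ E E' : P →₀ ℤ, 0 ≤ E ∧ 0 ≤ E' ∧ E ≠ E' ∧ S.O E = x ∧ S.O E' = x] := by
  tfae_have 1 → 2 := SelfMap.exists_affine hfd φ hφ
  tfae_have 2 → 3 := fun h => ⟨1, one_pos, by rw [pow_one]; exact h⟩
  tfae_have 3 → 4 := by
    rintro ⟨j, hj, f, hf, a, b, hab⟩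
    exact ⟨j, hj, (φ.pow j).fixed_class_of_affine hf hab⟩
  tfae_have 4 → 1 := by
    rintro ⟨j, hj, x, hx, E, E', hE, hE', hne, h1, h2⟩
    exact S.twoSections_of_perp hL (S.perp_of_fixed hL φ.isometry hφ hinf hj hx) hE hE' hne h1 h2
  tfae_finish

end Pool.Agent.Attic.MP_a405d2_ag.ParabolicMap
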